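import Mathlib

/-!
Definitions for MP_d684b1_an (sharp Dvoretzky for symmetric norms).
-/

set_option autoImplicit false

namespace Pool.Agent.Helper66.DS

open MeasureTheory Set

/-- Euclidean space of dimension `d + 1`. -/
abbrev E (d : ℕ) : Type := EuclideanSpace ℝ (Fin (d + 1))

/-- The open unit ball. -/
def ball1 (d : ℕ) : Set (E d) := Metric.ball (0 : E d) 1

/-- The direction of a vector (zero at zero). -/
noncomputable def dir {d : ℕ} (x : E d) : E d := ‖x‖⁻¹ • x

/-- `aa ξ x` is the inner product of `ξ` with the direction of `x`. -/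
noncomputable def aa {d : ℕ} (ξ x : E d) : ℝ := inner ℝ ξ (dir x)

/-- `qq ξ x` is the sine of the angle of `x` with the axis `ξ`. -/
noncomputable def qq {d : ℕ} (ξ x : E d) : ℝ := Real.sqrt (1 - aa ξ x ^ 2)

/-- A half-open box. -/
def box {ι : Type} (a b : ι → ℝ) : Set (ι → ℝ) := {y | ∀ i, a i ≤ y i ∧ y i < b i}

/-- The cone over a box in the face `x 0 = 1`, cut by the unit ball. -/
def coneCell {d : ℕ} (a b : Fin d → ℝ) : Set (E d) :=
  {x | x ∈ ball1 d ∧ 0 < x 0 ∧ ∀ i : Fin d, a i * x 0 ≤ x i.succ ∧ x i.succ < b i * x 0}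

/-- A partition (up to null sets) of the unit ball into `N` cells of the same volume, each seen
from the origin under a small angle. -/
structure Cells (d N : ℕ) (h : ℝ) where
  A : Fin N → Set (E d)
  meas : ∀ i, MeasurableSet (A i)
  sub : ∀ i, A i ⊆ ball1 d
  nz : ∀ i, (0 : E d) ∉ A i
  disj : ∀ i j, i ≠ j → Disjoint (A i) (A j)
  vol : ∀ i, volume.real (A i) * N = volume.real (ball1 d)
  diam : ∀ i, ∀ x ∈ A i, ∀ y ∈ A i, ‖dir x - dir y‖ ≤ h

end Pool.Agent.Helper66.DS
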