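import Pool.Agent.Helper66.DS.Defs

/-!
Basic facts on `dir`, `aa`, `qq`, the linear map attached to cells, rotations.
-/

set_option autoImplicit false

namespace Pool.Agent.Helper66.DS.Core

open MeasureTheory Set

variable {d : ℕ}

theorem norm_dir_le (x : E d) : ‖dir x‖ ≤ 1 := by
  unfold dir
  rw [norm_smul, norm_inv, norm_norm]
  by_cases h : ‖x‖ = 0
  · rw [h]; simp
  · rw [inv_mul_cancel₀ h]

theorem abs_aa_le (ξ x : E d) : |aa ξ x| ≤ ‖ξ‖ := by
  unfold aa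
  calc |inner ℝ ξ (dir x)| ≤ ‖ξ‖ * ‖dir x‖ := abs_real_inner_le_norm _ _
    _ ≤ ‖ξ‖ * 1 := mul_le_mul_of_nonneg_left (norm_dir_le x) (norm_nonneg _)
    _ = ‖ξ‖ := mul_one _

theorem measurable_dir : Measurable (dir : E d → E d) := by
  unfold dir
  fun_prop

theorem measurable_aa (ξ : E d) : Measurable (aa ξ) := by
  unfold aa
  exact (measurable_const.inner measurable_dir)

theorem aa_add (ξ η x : E d) : aa (ξ + η) x = aa ξ x + aa η x := by
  unfold aa
  rw [inner_add_left]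

theorem aa_smul (c : ℝ) (ξ x : E d) : aa (c • ξ) x = c * aa ξ x := by
  unfold aa
  rw [real_inner_smul_left]

theorem abs_aa_sub_le (ξ x y : E d) (hξ : ‖ξ‖ = 1) : |aa ξ x - aa ξ y| ≤ ‖dir x - dir y‖ := by
  unfold aa
  rw [← inner_sub_right]
  calc |inner ℝ ξ (dir x - dir y)| ≤ ‖ξ‖ * ‖dir x - dir y‖ := abs_real_inner_le_norm _ _
    _ = ‖dir x - dir y‖ := by rw [hξ, one_mul]

theorem norm_dir_eq {x : E d} (hx : x ≠ 0) : ‖dir x‖ = 1 := by
  unfold dir
  rw [norm_smul, norm_inv, norm_norm]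
  exact inv_mul_cancel₀ (norm_ne_zero_iff.2 hx)

/-- `qq` is the norm of the orthogonal part. -/
theorem qq_eq {ξ x : E d} (hξ : ‖ξ‖ = 1) (hx : x ≠ 0) :
    qq ξ x = ‖dir x - aa ξ x • ξ‖ := by
  unfold qq
  rw [show (1 : ℝ) - aa ξ x ^ 2 = ‖dir x - aa ξ x • ξ‖ ^ 2 from ?_]
  · exact Real.sqrt_sq (norm_nonneg _)
  · rw [norm_sub_sq_real, norm_dir_eq hx, norm_smul, hξ, real_inner_smul_right, Real.norm_eq_abs,
      mul_one, sq_abs, real_inner_comm]
    unfold aa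
    ring

theorem abs_qq_sub_le {ξ x y : E d} (hξ : ‖ξ‖ = 1) (hx : x ≠ 0) (hy : y ≠ 0) :
    |qq ξ x - qq ξ y| ≤ ‖dir x - dir y‖ := by
  rw [qq_eq hξ hx, qq_eq hξ hy]
  refine (abs_norm_sub_norm_le _ _).trans ?_
  set z := dir x - dir y with hz
  have h1 : dir x - aa ξ x • ξ - (dir y - aa ξ y • ξ) = z - (inner ℝ ξ z : ℝ) • ξ := by
    rw [hz, inner_sub_right, sub_smul]
    unfold aa
    abel
  rw [h1]
  have h2 : ‖z - (inner ℝ ξ z : ℝ) • ξ‖ ^ 2 ≤ ‖z‖ ^ 2 := by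
    rw [norm_sub_sq_real, norm_smul, hξ, real_inner_smul_right, Real.norm_eq_abs, mul_one, sq_abs,
      real_inner_comm]
    nlinarith [sq_nonneg (inner ℝ ξ z : ℝ)]
  exact le_of_sq_le_sq h2 (norm_nonneg _)

/-- Rotations. -/
theorem exists_rot (ξ ξ' : E d) (h : ‖ξ‖ = ‖ξ'‖) : ∃ R : E d ≃ₗᵢ[ℝ] E d, R ξ = ξ' :=
  ⟨_, Submodule.reflection_sub h⟩

theorem dir_map (R : E d ≃ₗᵢ[ℝ] E d) (x : E d) : dir (R x) = R (dir x) := by
  unfold dir
  rw [R.norm_map, map_smul]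

theorem aa_map (R : E d ≃ₗᵢ[ℝ] E d) (ξ x : E d) : aa (R ξ) (R x) = aa ξ x := by
  unfold aa
  rw [dir_map, R.inner_map_map]

theorem map_mem_ball1 (R : E d ≃ₗᵢ[ℝ] E d) (x : E d) : R x ∈ ball1 d ↔ x ∈ ball1 d := by
  unfold ball1
  rw [mem_ball_zero_iff, mem_ball_zero_iff, R.norm_map]

theorem measurableSet_ball1 : MeasurableSet (ball1 d) := Metric.isOpen_ball.measurableSet

instance : IsFiniteMeasure ((volume : Measure (E d)).restrict (ball1 d)) :=
  ⟨by
    rw [Measure.restrict_apply_univ]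
    exact measure_ball_lt_top⟩

theorem vol_ball1_pos : 0 < volume.real (ball1 d) := by
  unfold Measure.real
  refine ENNReal.toReal_pos ?_ measure_ball_lt_top.ne
  exact (Metric.measure_ball_pos volume (0 : E d) one_pos).ne'

theorem integrableOn_aa (ξ : E d) (s : Set (E d)) (hs : s ⊆ ball1 d) :
    IntegrableOn (aa ξ) s := by
  have h1 : IntegrableOn (aa ξ) (ball1 d) := by
    refine Integrable.mono' (g := fun _ => ‖ξ‖) (integrable_const _)
      (measurable_aa ξ).aestronglyMeasurable (Filter.Eventually.of_forall fun x => ?_)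
    rw [Real.norm_eq_abs]
    exact abs_aa_le ξ x
  exact h1.mono_set hs

/-- The linear map attached to a partition. -/
noncomputable def cellMap {N : ℕ} {h : ℝ} (𝒞 : Cells d N h) : E d →ₗ[ℝ] (Fin N → ℝ) where
  toFun ξ i := ∫ x in 𝒞.A i, aa ξ x
  map_add' ξ η := by
    funext i
    rw [Pi.add_apply, ← integral_add (integrableOn_aa ξ _ (𝒞.sub i)) (integrableOn_aa η _ (𝒞.sub i))]
    simp only [aa_add]
  map_smul' c ξ := by
    funext i
    rw [Pi.smul_apply, RingHom.id_apply, smul_eq_mul, ← integral_const_mul]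
    simp only [aa_smul]

theorem cellMap_apply {N : ℕ} {h : ℝ} (𝒞 : Cells d N h) (ξ : E d) (i : Fin N) :
    cellMap 𝒞 ξ i = ∫ x in 𝒞.A i, aa ξ x := rfl

end Pool.Agent.Helper66.DS.Core
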