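import Pool.Agent.Helper2.DS.Part
import Pool.Agent.Helper31.DS.Slice
import Pool.Agent.Helper38.DS.Face
import Pool.Agent.Helper42.DS.Bath
import Pool.Agent.Helper42.DS.ConeVol
import Pool.Agent.Helper42.DS.DirDiam
import Pool.Agent.Helper42.DS.Dom2
import Pool.Agent.Helper42.DS.Thr
import Pool.Agent.Helper62.DS.Dom1
import Pool.Agent.Helper79.DS.KVol
import Pool.Agent.Helper83.DS.Err
import Pool.Agent.Helper83.DS.LVol

/-!
Glue: the statements used by the assembly.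
-/

set_option autoImplicit false

namespace Pool.Agent.Helper66.DS

open MeasureTheory Set

theorem exists_cells' (d : ℕ) (hd : 1 ≤ d) : ∃ C : ℝ, 0 < C ∧ ∀ m : ℕ, 1 ≤ m →
    Nonempty (Cells d (2 * (d + 1) * m ^ d) (C / m)) :=
  exists_cells d hd (face_cells (fun μ _ c C hc hμ m hm => slice μ c C hc hμ m hm) cone_vol
    dir_diam d)

theorem threshold (d : ℕ) (hd : 1 ≤ d) (ξ : E d) (hξ : ‖ξ‖ = 1) (t : ℝ) (ht0 : 0 < t)
    (ht1 : t ≤ volume.real (ball1 d)) :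
    ∃ τ : ℝ, 0 ≤ τ ∧ τ ≤ 1 ∧ volume.real {x | x ∈ ball1 d ∧ τ ≤ |aa ξ x|} = t :=
  threshold_of d (annulus_upper d hd) (belt_upper d hd) ξ hξ t ht0 ht1

end Pool.Agent.Helper66.DS
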