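import Pool.Agent.Helper66.DS.Core1
import Pool.Agent.Helper66.DS.Glue

/-!
The comparison of the top sums for two directions.
-/

set_option autoImplicit false

namespace Pool.Agent.Helper66.DS.Core

open MeasureTheory Set

variable {d : ℕ}

/-- Integral over a subset, rotated. -/
theorem rot_integral (R : E d ≃ₗᵢ[ℝ] E d) (ξ : E d) (s : Set (E d)) :
    ∫ x in s, |aa ξ x| = ∫ x in R.symm ⁻¹' s, |aa (R ξ) x| := by
  have h1 := (R.symm.measurePreserving).setIntegral_preimage_emb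
    R.symm.toHomeomorph.measurableEmbedding (fun x => |aa ξ x|) s
  rw [← h1]
  have h2 : ∀ x, |aa ξ (R.symm x)| = |aa (R ξ) x| := by
    intro x
    rw [← aa_map R, R.apply_symm_apply]
  simp only [h2]

theorem rot_volume (R : E d ≃ₗᵢ[ℝ] E d) {s : Set (E d)} (hs : MeasurableSet s) :
    volume.real (R.symm ⁻¹' s) = volume.real s := by
  unfold Measure.real
  rw [(R.symm.measurePreserving).measure_preimage hs.nullMeasurableSet]

/-- The integral of `|aa|` over a cap is at least a constant times its volume. -/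
theorem cap_integral_lower (hd : 1 ≤ d) : ∃ c : ℝ, 0 < c ∧ ∀ ξ : E d, ‖ξ‖ = 1 → ∀ τ : ℝ,
    0 ≤ τ → τ ≤ 1 →
    c * volume.real {x | x ∈ ball1 d ∧ τ ≤ |aa ξ x|} ≤
      ∫ x in {x | x ∈ ball1 d ∧ τ ≤ |aa ξ x|}, |aa ξ x| := by
  obtain ⟨c1, hc1, hcap⟩ := cap_lower d hd
  set V := volume.real (ball1 d) with hV
  have hVpos : 0 < V := vol_ball1_pos
  set c4 : ℝ := c1 * (Real.sqrt (1 - (1 / 2 : ℝ) ^ 2)) ^ d with hc4
  have hc4pos : 0 < c4 := by
    rw [hc4]
    have : 0 < Real.sqrt (1 - (1 / 2 : ℝ) ^ 2) := Real.sqrt_pos.2 (by norm_num)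
    positivity
  refine ⟨min (1 / 2) (c4 / (2 * V)), lt_min (by norm_num) (by positivity), ?_⟩
  intro ξ hξ τ h0 h1
  have hmeas : ∀ s : ℝ, MeasurableSet {x : E d | x ∈ ball1 d ∧ s ≤ |aa ξ x|} := fun s =>
    measurableSet_ball1.inter (measurableSet_le measurable_const (measurable_aa ξ).abs)
  have hsub : ∀ s : ℝ, {x : E d | x ∈ ball1 d ∧ s ≤ |aa ξ x|} ⊆ ball1 d := fun s x hx => hx.1
  have hfin : ∀ s : ℝ, volume {x : E d | x ∈ ball1 d ∧ s ≤ |aa ξ x|} ≠ ⊤ := fun s =>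
    ((measure_mono (hsub s)).trans_lt measure_ball_lt_top).ne
  have hint : ∀ s : ℝ, IntegrableOn (fun x => |aa ξ x|) {x : E d | x ∈ ball1 d ∧ s ≤ |aa ξ x|} :=
    fun s => (integrableOn_aa ξ _ (hsub s)).abs
  have key : ∀ s : ℝ, s * volume.real {x : E d | x ∈ ball1 d ∧ s ≤ |aa ξ x|} ≤
      ∫ x in {x : E d | x ∈ ball1 d ∧ s ≤ |aa ξ x|}, |aa ξ x| := by
    intro s
    have := setIntegral_ge_of_const_le (hmeas s) (hfin s) (fun x hx => hx.2) (hint s)
    simpa [mul_comm, Measure.real] using this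
  rcases le_total (1 / 2) τ with h | h
  · refine le_trans ?_ (key τ)
    have : min (1 / 2) (c4 / (2 * V)) ≤ τ := (min_le_left _ _).trans h
    exact mul_le_mul_of_nonneg_right this measureReal_nonneg
  · have h2 : ∫ x in {x : E d | x ∈ ball1 d ∧ 1 / 2 ≤ |aa ξ x|}, |aa ξ x| ≤
        ∫ x in {x : E d | x ∈ ball1 d ∧ τ ≤ |aa ξ x|}, |aa ξ x| := by
      refine setIntegral_mono_set (hint τ) (Filter.Eventually.of_forall fun x => abs_nonneg _) ?_
      exact Filter.Eventually.of_forall fun x hx => ⟨hx.1, h.trans hx.2⟩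
    have h3 := key (1 / 2)
    have h4 := hcap ξ hξ (1 / 2) le_rfl (by norm_num)
    have h5 : volume.real {x : E d | x ∈ ball1 d ∧ τ ≤ |aa ξ x|} ≤ V :=
      measureReal_mono (hsub τ) measure_ball_lt_top.ne
    have h6 : (c4 / (2 * V)) * V = c4 / 2 := by field_simp
    calc min (1 / 2) (c4 / (2 * V)) * volume.real {x : E d | x ∈ ball1 d ∧ τ ≤ |aa ξ x|}
        ≤ (c4 / (2 * V)) * V := by
          refine mul_le_mul (min_le_right _ _) h5 measureReal_nonneg (by positivity)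
      _ = 1 / 2 * c4 := by rw [h6]; ring
      _ ≤ 1 / 2 * volume.real {x : E d | x ∈ ball1 d ∧ 1 / 2 ≤ |aa ξ x|} := by
          rw [hc4]
          linarith
      _ ≤ _ := h3
      _ ≤ _ := h2

/-- The comparison of top sums. -/
theorem core (hd : 1 ≤ d) : ∃ (C0 : ℝ) (m0 : ℕ), 0 < C0 ∧ 1 ≤ m0 ∧ ∀ m : ℕ, m0 ≤ m →
    ∃ T : E d →ₗ[ℝ] (Fin (2 * (d + 1) * m ^ d) → ℝ),
      (∀ ξ : E d, ‖ξ‖ = 1 → T ξ ≠ 0) ∧
      ∀ ξ ξ' : E d, ‖ξ‖ = 1 → ‖ξ'‖ = 1 → ∀ I : Finset (Fin (2 * (d + 1) * m ^ d)),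
        ∃ J : Finset (Fin (2 * (d + 1) * m ^ d)), J.card = I.card ∧
          ∑ i ∈ I, |T ξ i| ≤ (1 + C0 / (m : ℝ) ^ 2) * ∑ i ∈ J, |T ξ' i| := by
  obtain ⟨Cp, hCp, hcells⟩ := exists_cells' d hd
  obtain ⟨c1, hc1, hcap⟩ := cap_lower d hd
  obtain ⟨C2, hC2, hann⟩ := annulus_upper d hd
  obtain ⟨C3, hC3, hbelt⟩ := belt_upper d hd
  obtain ⟨c5, hc5, hlow⟩ := cap_integral_lower (d := d) hd
  set V := volume.real (ball1 d) with hV
  have hVpos : 0 < V := vol_ball1_pos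
  set K : ℝ := 2 * (d + 1) * Cp ^ d / V with hK
  have hKnn : 0 ≤ K := by rw [hK]; positivity
  obtain ⟨C, hC, herr⟩ := err_bound d hd c1 C2 C3 K hc1 hC2.le hC3.le hKnn
  -- constants
  set X : ℝ := C / c5 * Cp ^ 2 with hX
  have hXpos : 0 < X := by rw [hX]; positivity
  obtain ⟨m1, hm1⟩ := exists_nat_ge (max (4 * Cp) (max (2 * X) 1))
  refine ⟨2 * X, m1 + 1, by positivity, by omega, ?_⟩
  intro m hm
  have hmR : max (4 * Cp) (max (2 * X) 1) ≤ (m : ℝ) :=
    hm1.trans (by exact_mod_cast (by omega : m1 ≤ m))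
  have hm4 : 4 * Cp ≤ (m : ℝ) := (le_max_left _ _).trans hmR
  have hm2X : 2 * X ≤ (m : ℝ) := ((le_max_left _ _).trans (le_max_right _ _)).trans hmR
  have hmone : (1 : ℝ) ≤ m := ((le_max_right _ _).trans (le_max_right _ _)).trans hmR
  have hmpos : (0 : ℝ) < m := by linarith
  have hm1' : 1 ≤ m := by omega
  obtain ⟨𝒞⟩ := hcells m hm1'
  set N : ℕ := 2 * (d + 1) * m ^ d with hN
  have hNpos : (0 : ℝ) < N := by
    rw [hN]; positivity
  set κ : ℝ := V / N with hκ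
  have hκpos : 0 < κ := by rw [hκ]; positivity
  set h : ℝ := Cp / m with hh
  have hhpos : 0 < h := by rw [hh]; positivity
  have hh4 : h ≤ 1 / 4 := by
    rw [hh, div_le_iff₀ hmpos]; linarith
  have hhd : h ^ d ≤ K * κ := by
    rw [hh, hK, hκ, hN, div_pow]
    push_cast
    apply le_of_eq
    field_simp
  have hvolA : ∀ i, volume.real (𝒞.A i) = κ := fun i => by
    rw [hκ, eq_div_iff hNpos.ne']
    exact 𝒞.vol i
  -- the restricted measure
  set μ : Measure (E d) := (volume : Measure (E d)).restrict (ball1 d) with hμ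
  have hμreal : ∀ s : Set (E d), MeasurableSet s → μ.real s = volume.real (s ∩ ball1 d) :=
    fun s hs => measureReal_restrict_apply hs
  have hμA : ∀ i, μ.real (𝒞.A i) = κ := fun i => by
    rw [hμreal _ (𝒞.meas i), inter_eq_left.2 (𝒞.sub i), hvolA]
  have hμuniv : κ * N = μ.real univ := by
    rw [hμreal _ MeasurableSet.univ, univ_inter, hκ, ← hV]
    field_simp
  have hμAint : ∀ i (ξ : E d), ∫ x in 𝒞.A i, aa ξ x ∂μ = ∫ x in 𝒞.A i, aa ξ x := fun i ξ => by
    rw [hμ, Measure.restrict_restrict (𝒞.meas i), inter_eq_left.2 (𝒞.sub i)]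
  have hsetcomm : ∀ (P : E d → Prop), {x : E d | P x} ∩ ball1 d = {x | x ∈ ball1 d ∧ P x} := by
    intro P
    ext x
    simp only [mem_inter_iff, Set.mem_ofPred_eq, and_comm]
  have hμset : ∀ (P : E d → Prop), MeasurableSet {x : E d | P x} →
      μ.real {x | P x} = volume.real {x | x ∈ ball1 d ∧ P x} := by
    intro P hP
    rw [hμreal _ hP, hsetcomm]
  have hmeasD : ∀ (τ : ℝ) (ξ : E d), MeasurableSet {x : E d | τ ≤ |aa ξ x|} := fun τ ξ =>
    measurableSet_le measurable_const (measurable_aa ξ).abs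
  have step : ∀ ξ ξ' : E d, ‖ξ‖ = 1 → ‖ξ'‖ = 1 → ∀ I : Finset (Fin N), I.Nonempty →
      ∃ (M : ℝ) (J : Finset (Fin N)), J.card = I.card ∧ ∑ i ∈ I, |cellMap 𝒞 ξ i| ≤ M ∧
        c5 * ((I.card : ℝ) * κ) ≤ M ∧
        M ≤ ∑ i ∈ J, |cellMap 𝒞 ξ' i| + C * h ^ 2 * ((I.card : ℝ) * κ) := by
    intro ξ ξ' hξ hξ' I hI
    have hcard1 : 1 ≤ I.card := hI.card_pos
    have hcardN : I.card ≤ N := by simpa using I.card_le_univ
    have hr0 : 0 < (I.card : ℝ) * κ := by positivity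
    have hr1 : (I.card : ℝ) * κ ≤ V := by
      calc (I.card : ℝ) * κ ≤ N * κ := by
            refine mul_le_mul_of_nonneg_right (by exact_mod_cast hcardN) hκpos.le
        _ = V := by rw [hκ]; field_simp
    obtain ⟨τ, hτ0, hτ1, hτ⟩ := threshold d hd ξ' hξ' _ hr0 hr1
    refine ⟨∫ x in {x | x ∈ ball1 d ∧ τ ≤ |aa ξ' x|}, |aa ξ' x|, ?_⟩
    have hMμ : ∫ x in {x | τ ≤ |aa ξ' x|}, |aa ξ' x| ∂μ =
        ∫ x in {x | x ∈ ball1 d ∧ τ ≤ |aa ξ' x|}, |aa ξ' x| := by
      rw [hμ, Measure.restrict_restrict (hmeasD τ ξ'), hsetcomm]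
    have hμD : μ.real {x | τ ≤ |aa ξ' x|} = (I.card : ℝ) * κ := by
      rw [hμset _ (hmeasD τ ξ'), hτ]
    -- error bound
    have he := herr (E d) inferInstance μ inferInstance (aa ξ') (measurable_aa ξ')
      (fun x => by rw [← hξ']; exact abs_aa_le ξ' x)
      (fun s hs1 hs2 => by
        rw [hμset _ (hmeasD s ξ')]
        exact hcap ξ' hξ' s hs1 hs2)
      (fun s δ hs1 hs2 hδ1 hδ2 => by
        rw [hμset]
        · exact hann ξ' hξ' s δ hs1 hs2 hδ1 hδ2
        · have hm7 : MeasurableSet {x : E d | (1 / 4 : ℝ) ≤ |aa ξ' x|} :=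
            measurableSet_le measurable_const (measurable_aa ξ').abs
          have hm8 : MeasurableSet {x : E d | |Real.sqrt (1 - aa ξ' x ^ 2) -
              Real.sqrt (1 - s ^ 2)| ≤ δ} :=
            measurableSet_le (((measurable_const.sub ((measurable_aa ξ').pow_const 2)).sqrt).sub
              measurable_const).abs measurable_const
          exact hm7.inter hm8)
      (fun s δ hs1 hs2 hδ1 hδ2 => by
        rw [hμset]
        · exact hbelt ξ' hξ' s δ hs1 hs2 hδ1 hδ2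
        · exact measurableSet_le (((measurable_aa ξ').abs.sub measurable_const).abs)
            measurable_const)
      N 𝒞.A 𝒞.meas 𝒞.disj κ h hκpos hhpos hh4 hhd hμA hμuniv
      (fun i x hx y hy => by
        have hx0 : x ≠ 0 := fun h0 => 𝒞.nz i (h0 ▸ hx)
        have hy0 : y ≠ 0 := fun h0 => 𝒞.nz i (h0 ▸ hy)
        exact ⟨(abs_aa_sub_le ξ' x y hξ').trans (𝒞.diam i x hx y hy),
          (abs_qq_sub_le hξ' hx0 hy0).trans (𝒞.diam i x hx y hy)⟩)
      I.card hcard1 τ hτ0 hτ1 hμD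
    -- weights
    set w : Fin N → ℝ := fun i => μ.real (𝒞.A i ∩ {x | τ ≤ |aa ξ' x|}) / κ with hw
    have hw0 : ∀ i, 0 ≤ w i := fun i => div_nonneg measureReal_nonneg hκpos.le
    have hw1 : ∀ i, w i ≤ 1 := fun i => by
      rw [hw, div_le_one hκpos, ← hμA i]
      exact measureReal_mono inter_subset_left
    have hdisj : Pairwise (Function.onFun Disjoint 𝒞.A) := fun i j hij => 𝒞.disj i j hij
    have hunion : μ.real (⋃ i, 𝒞.A i) = μ.real univ := by
      rw [measureReal_def, measure_iUnion hdisj 𝒞.meas, tsum_fintype, ENNReal.toReal_sum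
        (fun i _ => measure_ne_top _ _)]
      have : ∀ i, (μ (𝒞.A i)).toReal = κ := hμA
      simp only [this, Finset.sum_const, Finset.card_univ, Fintype.card_fin, nsmul_eq_mul]
      rw [← hμuniv, mul_comm]
    have hmeasU : MeasurableSet (⋃ i, 𝒞.A i) := MeasurableSet.iUnion 𝒞.meas
    have hcompl : μ (⋃ i, 𝒞.A i)ᶜ = 0 := by
      have h1 := measureReal_compl (μ := μ) hmeasU
      rw [hunion, sub_self, measureReal_def, ENNReal.toReal_eq_zero_iff] at h1
      exact h1.resolve_right (measure_ne_top _ _)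
    have hsum : ∑ i, w i = (I.card : ℕ) := by
      have h1 : ∑ i, μ.real (𝒞.A i ∩ {x | τ ≤ |aa ξ' x|}) = μ.real {x | τ ≤ |aa ξ' x|} := by
        have h2 : μ.real {x | τ ≤ |aa ξ' x|} =
            μ.real (⋃ i, (𝒞.A i ∩ {x | τ ≤ |aa ξ' x|})) := by
          rw [← iUnion_inter, measureReal_def, measureReal_def]
          congr 1
          refine (measure_congr ?_).symm
          have h3 : (⋃ i, 𝒞.A i : Set (E d)) =ᵐ[μ] univ := by
            rw [ae_eq_univ]
            exact hcompl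
          simpa using h3.inter (ae_eq_refl {x : E d | τ ≤ |aa ξ' x|})
        rw [h2, measureReal_def, measure_iUnion (fun i j hij => ?_) (fun i =>
          (𝒞.meas i).inter (hmeasD τ ξ')), tsum_fintype,
          ENNReal.toReal_sum (fun i _ => measure_ne_top _ _)]
        · rfl
        · exact (𝒞.disj i j hij).mono inter_subset_left inter_subset_left
      rw [hw, ← Finset.sum_div, h1, hμD]
      field_simp
    obtain ⟨J, hJ, hJsum⟩ := top_weights (fun i => |cellMap 𝒞 ξ' i|) w (fun i => abs_nonneg _)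
      hw0 hw1 I.card hsum
    refine ⟨J, hJ, ?_, ?_, ?_⟩
    · -- upper bound
      obtain ⟨R, hR⟩ := exists_rot ξ ξ' (by rw [hξ, hξ'])
      set U : Set (E d) := ⋃ i ∈ I, 𝒞.A i with hU
      have hUmeas : MeasurableSet U := Finset.measurableSet_biUnion I fun i _ => 𝒞.meas i
      have hUsub : U ⊆ ball1 d := iUnion₂_subset fun i _ => 𝒞.sub i
      have hpair : (I : Set (Fin N)).PairwiseDisjoint 𝒞.A := fun i _ j _ hij => 𝒞.disj i j hij
      have hUvol : volume.real U = (I.card : ℝ) * κ := by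
        rw [hU, measureReal_biUnion_finset hpair (fun i _ => 𝒞.meas i)
          (fun i _ => ((measure_mono (𝒞.sub i)).trans_lt measure_ball_lt_top).ne)]
        simp only [hvolA, Finset.sum_const, nsmul_eq_mul]
      set U' : Set (E d) := R.symm ⁻¹' U with hU'
      have hU'meas : MeasurableSet U' := R.symm.continuous.measurable hUmeas
      have hU'sub : U' ⊆ ball1 d := fun x hx => (map_mem_ball1 R.symm x).1 (hUsub hx)
      have hμU' : μ.real U' = μ.real {x | τ ≤ |aa ξ' x|} := by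
        rw [hμD, hμreal _ hU'meas, inter_eq_left.2 hU'sub, hU', rot_volume R hUmeas, hUvol]
      have hb := bathtub μ (fun x => |aa ξ' x|) (measurable_aa ξ').abs (fun x => abs_nonneg _)
        (fun x => by rw [← hξ']; exact abs_aa_le ξ' x) τ U' hU'meas hμU'
      calc ∑ i ∈ I, |cellMap 𝒞 ξ i| ≤ ∑ i ∈ I, ∫ x in 𝒞.A i, |aa ξ x| := by
            refine Finset.sum_le_sum fun i _ => ?_
            rw [cellMap_apply]
            exact abs_integral_le_integral_abs
        _ = ∫ x in U, |aa ξ x| := by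
            rw [hU, integral_biUnion_finset I (fun i _ => 𝒞.meas i) hpair
              (fun i _ => (integrableOn_aa ξ _ (𝒞.sub i)).abs)]
        _ = ∫ x in U', |aa ξ' x| := by rw [rot_integral R ξ U, hR]
        _ = ∫ x in U', |aa ξ' x| ∂μ := by
            rw [hμ, Measure.restrict_restrict hU'meas, inter_eq_left.2 hU'sub]
        _ ≤ ∫ x in {x | τ ≤ |aa ξ' x|}, |aa ξ' x| ∂μ := hb
        _ = _ := hMμ
    · have := hlow ξ' hξ' τ hτ0 hτ1
      rw [hτ] at this
      exact this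
    · rw [hMμ] at he
      refine he.trans ?_
      have h7 : ∑ i, μ.real (𝒞.A i ∩ {x | τ ≤ |aa ξ' x|}) / κ * |∫ x in 𝒞.A i, aa ξ' x ∂μ| =
          ∑ i, w i * |cellMap 𝒞 ξ' i| := by
        refine Finset.sum_congr rfl fun i _ => ?_
        rw [hμAint, cellMap_apply]
      rw [h7]
      linarith
  -- conclusion
  have hx : C * h ^ 2 / c5 = X / (m : ℝ) ^ 2 := by
    rw [hX, hh, div_pow]
    field_simp
  have hm2 : (0 : ℝ) < (m : ℝ) ^ 2 := by positivity
  have hXm : X / (m : ℝ) ^ 2 ≤ 1 / 2 := by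
    rw [div_le_iff₀ hm2]
    nlinarith
  have hXm0 : 0 < X / (m : ℝ) ^ 2 := by positivity
  have concl : ∀ ξ ξ' : E d, ‖ξ‖ = 1 → ‖ξ'‖ = 1 → ∀ I : Finset (Fin N), I.Nonempty →
      ∃ J : Finset (Fin N), J.card = I.card ∧ 0 < ∑ i ∈ J, |cellMap 𝒞 ξ' i| ∧
        ∑ i ∈ I, |cellMap 𝒞 ξ i| ≤ (1 + 2 * X / (m : ℝ) ^ 2) * ∑ i ∈ J, |cellMap 𝒞 ξ' i| := by
    intro ξ ξ' hξ hξ' I hI
    obtain ⟨M, J, hJ, h1, h2, h3⟩ := step ξ ξ' hξ hξ' I hI
    have hr0 : 0 < (I.card : ℝ) * κ := by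
      have := hI.card_pos
      positivity
    have hMpos : 0 < M := lt_of_lt_of_le (by positivity) h2
    set S := ∑ i ∈ J, |cellMap 𝒞 ξ' i| with hS
    have h4 : C * h ^ 2 * ((I.card : ℝ) * κ) ≤ X / (m : ℝ) ^ 2 * M := by
      rw [← hx]
      calc C * h ^ 2 * ((I.card : ℝ) * κ) = C * h ^ 2 / c5 * (c5 * ((I.card : ℝ) * κ)) := by
            field_simp
        _ ≤ C * h ^ 2 / c5 * M := mul_le_mul_of_nonneg_left h2 (by positivity)
    have h5 : M * (1 - X / (m : ℝ) ^ 2) ≤ S := by linarith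
    have hSpos : 0 < S := lt_of_lt_of_le (mul_pos hMpos (by linarith)) h5
    refine ⟨J, hJ, hSpos, h1.trans ?_⟩
    set y := X / (m : ℝ) ^ 2 with hy
    have h6 : 1 + 2 * X / (m : ℝ) ^ 2 = 1 + 2 * y := by rw [hy]; ring
    rw [h6]
    nlinarith [mul_nonneg hXm0.le (sub_nonneg.2 hXm), mul_pos hMpos hXm0]
  have hNnat : 0 < N := by exact_mod_cast hNpos
  refine ⟨cellMap 𝒞, ?_, ?_⟩
  · intro ξ hξ h0
    obtain ⟨J, hJ, hpos, -⟩ := concl ξ ξ hξ hξ {⟨0, hNnat⟩} ⟨_, Finset.mem_singleton_self _⟩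
    rw [h0] at hpos
    simp at hpos
  · intro ξ ξ' hξ hξ' I
    rcases I.eq_empty_or_nonempty with rfl | hI
    · exact ⟨∅, rfl, by simp⟩
    · obtain ⟨J, hJ, -, h1⟩ := concl ξ ξ' hξ hξ' I hI
      exact ⟨J, hJ, h1⟩

end Pool.Agent.Helper66.DS.Core
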