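import Mathlib

/-!
Permutation invariant norms on `Fin n → ℝ` induce signed-permutation invariant seminorms on
`Fin N → ℝ` for `2 N ≤ n`, through `y ↦ (y, -y, 0)`.
-/

set_option autoImplicit false

namespace Pool.Agent.Helper66.DS

/-- The map `y ↦ (y, -y, 0)` read through an equivalence. -/
def embL {N n : ℕ} (e : (Fin N ⊕ Fin N) ⊕ Fin (n - 2 * N) ≃ Fin n) :
    (Fin N → ℝ) →ₗ[ℝ] (Fin n → ℝ) where
  toFun y j := Sum.elim (Sum.elim y (fun i => -y i)) (fun _ => 0) (e.symm j)
  map_add' x y := by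
    funext j
    simp only [Pi.add_apply]
    rcases e.symm j with (i | i) | i <;> simp [add_comm]
  map_smul' c x := by
    funext j
    simp only [Pi.smul_apply, RingHom.id_apply, smul_eq_mul]
    rcases e.symm j with (i | i) | i <;> simp

theorem embL_apply {N n : ℕ} (e : (Fin N ⊕ Fin N) ⊕ Fin (n - 2 * N) ≃ Fin n) (y : Fin N → ℝ)
    (j : Fin n) :
    embL e y j = Sum.elim (Sum.elim y (fun i => -y i)) (fun _ => 0) (e.symm j) := rfl

theorem embL_inj {N n : ℕ} (e : (Fin N ⊕ Fin N) ⊕ Fin (n - 2 * N) ≃ Fin n) :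
    Function.Injective (embL e) := by
  intro x y h
  funext i
  have := congrFun h (e (Sum.inl (Sum.inl i)))
  simpa [embL_apply] using this

theorem embL_perm {N n : ℕ} (e : (Fin N ⊕ Fin N) ⊕ Fin (n - 2 * N) ≃ Fin n)
    (σ : Equiv.Perm (Fin N)) (y : Fin N → ℝ) :
    embL e (fun i => y (σ i)) = fun j => embL e y
      ((e.symm.trans ((Equiv.sumCongr (Equiv.sumCongr σ σ) (Equiv.refl _)).trans e)) j) := by
  funext j
  simp only [embL_apply, Equiv.trans_apply, Equiv.symm_apply_apply]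
  rcases e.symm j with (i | i) | i <;> simp

/-- The involution of `Fin N ⊕ Fin N` which exchanges the two copies of `i` when `s i ≠ 1`. -/
noncomputable def swapS {N : ℕ} (s : Fin N → ℝ) : Fin N ⊕ Fin N → Fin N ⊕ Fin N
  | Sum.inl i => if s i = 1 then Sum.inl i else Sum.inr i
  | Sum.inr i => if s i = 1 then Sum.inr i else Sum.inl i

theorem swapS_invol {N : ℕ} (s : Fin N → ℝ) : Function.Involutive (swapS s) := by
  rintro (i | i)
  · by_cases h : s i = 1 <;> simp [swapS, h]
  · by_cases h : s i = 1 <;> simp [swapS, h]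

theorem embL_sign {N n : ℕ} (e : (Fin N ⊕ Fin N) ⊕ Fin (n - 2 * N) ≃ Fin n)
    (s : Fin N → ℝ) (hs : ∀ i, s i = 1 ∨ s i = -1) (y : Fin N → ℝ) :
    embL e (fun i => s i * y i) = fun j => embL e y
      ((e.symm.trans ((Equiv.sumCongr (swapS_invol s).toPerm (Equiv.refl _)).trans e)) j) := by
  funext j
  simp only [embL_apply, Equiv.trans_apply, Equiv.symm_apply_apply]
  rcases e.symm j with (i | i) | i
  · rcases hs i with h | h
    · simp [swapS, h]
    · have h1 : (-1 : ℝ) ≠ 1 := by norm_num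
      simp [swapS, h, h1]
  · rcases hs i with h | h
    · simp [swapS, h]
    · have h1 : (-1 : ℝ) ≠ 1 := by norm_num
      simp [swapS, h, h1]
  · simp

theorem exists_embL {N n : ℕ} (h : 2 * N ≤ n) :
    Nonempty ((Fin N ⊕ Fin N) ⊕ Fin (n - 2 * N) ≃ Fin n) := by
  refine ⟨Fintype.equivOfCardEq ?_⟩
  simp only [Fintype.card_sum, Fintype.card_fin]
  omega

end Pool.Agent.Helper66.DS
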