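import Pool.Agent.Helper66.DS.Core2
import Pool.Agent.Helper66.DS.Embed

/-!
Assembly.
-/

set_option autoImplicit false

namespace Pool.Agent.Helper66.DS.Core

theorem final_thm (d : ℕ) (hd : 1 ≤ d) : ∃ C : ℝ, 0 < C ∧ ∀ ε : ℝ, 0 < ε → ε ≤ 1 →
    ∀ n : ℕ, C * ε ^ (-(d : ℝ) / 2) ≤ n →
    ∃ T : E d →ₗ[ℝ] (Fin n → ℝ), ∀ p : Seminorm ℝ (Fin n → ℝ),
      (∀ x, p x = 0 → x = 0) →
      (∀ (σ : Equiv.Perm (Fin n)) (x : Fin n → ℝ), p (fun i => x (σ i)) = p x) →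
      ∃ c : ℝ, 0 < c ∧ ∀ ξ : E d, c * ‖ξ‖ ≤ p (T ξ) ∧ p (T ξ) ≤ (1 + ε) * c * ‖ξ‖ := by
  obtain ⟨C0, m0, hC0, hm0, hcore⟩ := core (d := d) hd
  set A : ℝ := m0 + 1 + Real.sqrt (3 * C0) with hA
  have hApos : 0 < A := by rw [hA]; positivity
  refine ⟨4 * (d + 1) * A ^ d, by positivity, ?_⟩
  intro ε hε0 hε1 n hn
  set s : ℝ := (Real.sqrt ε)⁻¹ with hs
  have hsq : 0 < Real.sqrt ε := Real.sqrt_pos.2 hε0
  have hsq1 : Real.sqrt ε ≤ 1 := by rw [Real.sqrt_le_iff]; constructor <;> linarith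
  have hs1 : 1 ≤ s := by rw [hs]; exact (one_le_inv₀ hsq).2 hsq1
  have hspow : ε ^ (-(d : ℝ) / 2) = s ^ d := by
    rw [hs, Real.sqrt_eq_rpow, ← Real.rpow_neg hε0.le, ← Real.rpow_natCast, ← Real.rpow_mul hε0.le]
    congr 1
    ring
  set m : ℕ := m0 + ⌈Real.sqrt (3 * C0) * s⌉₊ with hm
  have hmlow : Real.sqrt (3 * C0) * s ≤ m := by
    rw [hm]
    push_cast
    have := Nat.le_ceil (Real.sqrt (3 * C0) * s)
    have h0 : (0 : ℝ) ≤ m0 := by positivity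
    linarith
  have hmup : (m : ℝ) ≤ A * s := by
    rw [hm, hA]
    push_cast
    have := (Nat.ceil_lt_add_one (a := Real.sqrt (3 * C0) * s) (by positivity)).le
    have h0 : (0 : ℝ) ≤ m0 := by positivity
    nlinarith
  have hmm0 : m0 ≤ m := by rw [hm]; omega
  have hmpos : (0 : ℝ) < m := by exact_mod_cast (by omega : 0 < m)
  have hc := hcore m hmm0
  obtain ⟨N, hN⟩ : ∃ N : ℕ, N = 2 * (d + 1) * m ^ d := ⟨_, rfl⟩
  rw [← hN] at hc
  obtain ⟨T, hT0, hT⟩ := hc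
  have hNn : 2 * N ≤ n := by
    have h1 : ((2 * N : ℕ) : ℝ) ≤ n := by
      refine le_trans ?_ hn
      rw [hspow, hN]
      push_cast
      calc 2 * (2 * ((d : ℝ) + 1) * (m : ℝ) ^ d) = 4 * (d + 1) * (m : ℝ) ^ d := by ring
        _ ≤ 4 * (d + 1) * (A * s) ^ d := by
            refine mul_le_mul_of_nonneg_left (pow_le_pow_left₀ hmpos.le hmup d) (by positivity)
        _ = 4 * (d + 1) * A ^ d * s ^ d := by rw [mul_pow]; ring
    exact_mod_cast h1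
  obtain ⟨e⟩ := exists_embL hNn
  refine ⟨(embL e).comp T, ?_⟩
  intro p hp hperm
  set y : ℝ := C0 / (m : ℝ) ^ 2 with hy
  have hy0 : 0 < y := by rw [hy]; positivity
  have hyε : 3 * y ≤ ε := by
    have h1 : 3 * C0 ≤ ε * (m : ℝ) ^ 2 := by
      have h2 : (Real.sqrt (3 * C0) * s) ^ 2 ≤ (m : ℝ) ^ 2 := pow_le_pow_left₀ (by positivity) hmlow 2
      rw [mul_pow, Real.sq_sqrt (by positivity), hs, inv_pow, Real.sq_sqrt hε0.le] at h2
      have h3 := mul_le_mul_of_nonneg_left h2 hε0.le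
      have h4 : ε * (3 * C0 * ε⁻¹) = 3 * C0 := by field_simp
      linarith
    rw [hy, ← mul_div_assoc, div_le_iff₀ (by positivity)]
    exact h1
  set q : Seminorm ℝ (Fin N → ℝ) := p.comp (embL e) with hq
  have hqa : ∀ z, q z = p (embL e z) := fun z => rfl
  have hqperm : ∀ (σ : Equiv.Perm (Fin N)) (x : Fin N → ℝ), q (fun i => x (σ i)) = q x := by
    intro σ x
    rw [hqa, hqa, embL_perm, hperm]
  have hqsign : ∀ (s : Fin N → ℝ), (∀ i, s i = 1 ∨ s i = -1) →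
      ∀ x : Fin N → ℝ, q (fun i => s i * x i) = q x := by
    intro s hs x
    rw [hqa, hqa, embL_sign e s hs, hperm]
  have hcomp : ∀ ξ ξ' : E d, ‖ξ‖ = 1 → ‖ξ'‖ = 1 → q (T ξ) ≤ (1 + y) * q (T ξ') := by
    intro ξ ξ' hξ hξ'
    exact kyfan_dominance q hqperm hqsign _ _ _ (by positivity) fun I => hT ξ ξ' hξ hξ' I
  -- a unit vector
  set ξ₀ : E d := EuclideanSpace.single 0 1 with hξ₀
  have hξ₀1 : ‖ξ₀‖ = 1 := by rw [hξ₀]; simp
  have hpos : 0 < q (T ξ₀) := by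
    refine lt_of_le_of_ne (apply_nonneg _ _) fun h0 => ?_
    have h1 := hp _ h0.symm
    have h2 : embL e (T ξ₀) = embL e 0 := by rw [h1, map_zero]
    exact hT0 ξ₀ hξ₀1 (embL_inj e h2)
  refine ⟨q (T ξ₀) / (1 + y), by positivity, ?_⟩
  intro ξ
  have hscale : p (((embL e).comp T) ξ) = q (T ξ) := rfl
  rw [hscale]
  by_cases h0 : ξ = 0
  · subst h0
    simp
  have hn0 : 0 < ‖ξ‖ := norm_pos_iff.2 h0
  set η : E d := ‖ξ‖⁻¹ • ξ with hη
  have hη1 : ‖η‖ = 1 := by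
    rw [hη, norm_smul, norm_inv, norm_norm, inv_mul_cancel₀ hn0.ne']
  have hξη : ξ = ‖ξ‖ • η := by
    rw [hη, smul_smul, mul_inv_cancel₀ hn0.ne', one_smul]
  have hq1 : q (T ξ) = ‖ξ‖ * q (T η) := by
    conv_lhs => rw [hξη, map_smul, map_smul_eq_mul, norm_norm]
  rw [hq1]
  have h1 := hcomp ξ₀ η hξ₀1 hη1
  have h2 := hcomp η ξ₀ hη1 hξ₀1
  have hy1 : 0 < 1 + y := by positivity
  constructor
  · have h3 : q (T ξ₀) / (1 + y) ≤ q (T η) := by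
      rw [div_le_iff₀ hy1]
      linarith
    calc q (T ξ₀) / (1 + y) * ‖ξ‖ ≤ q (T η) * ‖ξ‖ := mul_le_mul_of_nonneg_right h3 hn0.le
      _ = _ := mul_comm _ _
  · have h3 : q (T η) ≤ (1 + ε) * (q (T ξ₀) / (1 + y)) := by
      have h4 : (1 + y) * (1 + y) ≤ 1 + ε := by nlinarith
      calc q (T η) ≤ (1 + y) * q (T ξ₀) := h2
        _ = ((1 + y) * (1 + y)) * (q (T ξ₀) / (1 + y)) := by field_simp
        _ ≤ (1 + ε) * (q (T ξ₀) / (1 + y)) := by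
            refine mul_le_mul_of_nonneg_right h4 (by positivity)
    calc ‖ξ‖ * q (T η) ≤ ‖ξ‖ * ((1 + ε) * (q (T ξ₀) / (1 + y))) :=
          mul_le_mul_of_nonneg_left h3 hn0.le
      _ = _ := by ring

end Pool.Agent.Helper66.DS.Core
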