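import Pool.Agent.Helper66.DS.Core1
import Pool.Agent.Helper66.DS.Glue

/-!
The (known) lower bound for the cube, by volumes of caps.
-/

set_option autoImplicit false

namespace Pool.Agent.Helper66.DS.Core

open MeasureTheory Set

variable {d : ℕ}

theorem cap_upper (hd : 1 ≤ d) : ∃ C : ℝ, 0 < C ∧ ∀ ξ : E d, ‖ξ‖ = 1 → ∀ τ : ℝ,
    1 / 2 ≤ τ → τ ≤ 1 → Real.sqrt (1 - τ ^ 2) ≤ 1 / 4 →
    volume.real {x | x ∈ ball1 d ∧ τ ≤ |aa ξ x|} ≤ C * (Real.sqrt (1 - τ ^ 2)) ^ d := by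
  obtain ⟨C, hC, h⟩ := annulus_upper d hd
  refine ⟨C * 2 ^ (d - 1), by positivity, ?_⟩
  intro ξ hξ τ h1 h2 h3
  set ρ := Real.sqrt (1 - τ ^ 2) with hρ
  have hρ0 : 0 ≤ ρ := Real.sqrt_nonneg _
  have h4 := h ξ hξ τ ρ h1 h2 hρ0 h3
  have h5 : volume.real {x | x ∈ ball1 d ∧ τ ≤ |aa ξ x|} ≤
      volume.real {x | x ∈ ball1 d ∧ 1 / 4 ≤ |aa ξ x| ∧ |qq ξ x - Real.sqrt (1 - τ ^ 2)| ≤ ρ} := by
    refine measureReal_mono ?_ ((measure_mono (fun x hx => hx.1)).trans_lt
      (measure_ball_lt_top (x := (0 : E d)) (r := 1))).ne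
    intro x hx
    refine ⟨hx.1, by linarith [hx.2], ?_⟩
    have h6 : qq ξ x ≤ ρ := by
      unfold qq
      refine Real.sqrt_le_sqrt ?_
      have h7 := hx.2
      have h8 : τ ^ 2 ≤ |aa ξ x| ^ 2 := pow_le_pow_left₀ (by linarith) h7 2
      rw [sq_abs] at h8
      linarith
    have h7 : 0 ≤ qq ξ x := Real.sqrt_nonneg _
    rw [abs_le]
    constructor <;> linarith
  refine h5.trans (h4.trans (le_of_eq ?_))
  rw [← hρ]
  obtain ⟨e, rfl⟩ : ∃ e, d = e + 1 := ⟨d - 1, by omega⟩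
  rw [Nat.add_sub_cancel, show ρ + ρ = 2 * ρ by ring, mul_pow, pow_succ]
  ring

theorem cube_lower (hd : 1 ≤ d) : ∃ c : ℝ, 0 < c ∧ ∀ ε : ℝ, 0 < ε → ε ≤ 1 →
    ∀ (n : ℕ) (T : E d →ₗ[ℝ] (Fin n → ℝ)) (a : ℝ), 0 < a →
      (∀ ξ : E d, a * ‖ξ‖ ≤ ‖T ξ‖ ∧ ‖T ξ‖ ≤ (1 + ε) * a * ‖ξ‖) →
      c * ε ^ (-(d : ℝ) / 2) ≤ n := by
  obtain ⟨C, hC, hcap⟩ := cap_upper (d := d) hd
  set V := volume.real (ball1 d) with hV
  have hVpos : 0 < V := vol_ball1_pos
  have hr2 : (0 : ℝ) < Real.sqrt 2 := Real.sqrt_pos.2 (by norm_num)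
  have hr6 : (0 : ℝ) < Real.sqrt (1 / 32) := Real.sqrt_pos.2 (by norm_num)
  refine ⟨min (V / (C * Real.sqrt 2 ^ d)) (Real.sqrt (1 / 32) ^ d), by positivity, ?_⟩
  intro ε hε0 hε1 n T a ha hT
  have hsq : 0 < Real.sqrt ε := Real.sqrt_pos.2 hε0
  have hpow : ε ^ (-(d : ℝ) / 2) = ((Real.sqrt ε)⁻¹) ^ d := by
    rw [Real.sqrt_eq_rpow, ← Real.rpow_neg hε0.le, ← Real.rpow_natCast, ← Real.rpow_mul hε0.le]
    congr 1
    ring
  rw [hpow]
  set ξ₀ : E d := EuclideanSpace.single 0 1 with hξ₀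
  have hξ₀1 : ‖ξ₀‖ = 1 := by rw [hξ₀]; simp
  have hn1 : (1 : ℝ) ≤ n := by
    rcases Nat.eq_zero_or_pos n with h0 | h0
    · exfalso
      subst h0
      have h1 := (hT ξ₀).1
      have h2 : T ξ₀ = 0 := Subsingleton.elim _ _
      rw [h2, norm_zero, hξ₀1] at h1
      linarith
    · exact_mod_cast h0
  rcases le_total (1 / 32) ε with hbig | hsmall
  · -- trivial case
    have h1 : Real.sqrt (1 / 32) * (Real.sqrt ε)⁻¹ ≤ 1 := by
      rw [← div_eq_mul_inv, div_le_one hsq]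
      exact Real.sqrt_le_sqrt hbig
    calc min (V / (C * Real.sqrt 2 ^ d)) (Real.sqrt (1 / 32) ^ d) * (Real.sqrt ε)⁻¹ ^ d
        ≤ Real.sqrt (1 / 32) ^ d * (Real.sqrt ε)⁻¹ ^ d :=
          mul_le_mul_of_nonneg_right (min_le_right _ _) (by positivity)
      _ = (Real.sqrt (1 / 32) * (Real.sqrt ε)⁻¹) ^ d := (mul_pow _ _ _).symm
      _ ≤ 1 := pow_le_one₀ (by positivity) h1
      _ ≤ n := hn1
  · -- main case
    set τ : ℝ := 1 / (1 + ε) with hτ
    have hτpos : 0 < τ := by rw [hτ]; positivity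
    have hτ1 : τ ≤ 1 := by rw [hτ, div_le_one (by linarith)]; linarith
    have hτ2 : 1 / 2 ≤ τ := by
      rw [hτ]
      exact one_div_le_one_div_of_le (by linarith) (by linarith)
    have hρ2 : 1 - τ ^ 2 ≤ 2 * ε := by
      have h1 : 1 - ε ≤ τ := by
        rw [hτ, le_div_iff₀ (by linarith)]
        nlinarith
      nlinarith
    have hρle : Real.sqrt (1 - τ ^ 2) ≤ Real.sqrt 2 * Real.sqrt ε := by
      rw [← Real.sqrt_mul (by norm_num)]
      exact Real.sqrt_le_sqrt hρ2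
    have hρ4 : Real.sqrt (1 - τ ^ 2) ≤ 1 / 4 := by
      rw [show (1 / 4 : ℝ) = Real.sqrt (1 / 16) by
        rw [show (1 / 16 : ℝ) = (1 / 4) ^ 2 by norm_num, Real.sqrt_sq (by norm_num)]]
      exact Real.sqrt_le_sqrt (by linarith)
    -- Riesz vectors
    set f : Fin n → (E d →L[ℝ] ℝ) := fun i =>
      LinearMap.toContinuousLinearMap ((LinearMap.proj i : (Fin n → ℝ) →ₗ[ℝ] ℝ).comp T) with hf
    set v : Fin n → E d := fun i => (InnerProductSpace.toDual ℝ (E d)).symm (f i) with hv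
    have hvi : ∀ i x, inner ℝ (v i) x = T x i := by
      intro i x
      rw [hv]
      simp only [InnerProductSpace.toDual_symm_apply]
      rfl
    have hvn : ∀ i, ‖v i‖ ≤ (1 + ε) * a := by
      intro i
      by_cases h0 : v i = 0
      · rw [h0, norm_zero]; positivity
      · have h1 : ‖v i‖ * ‖v i‖ ≤ (1 + ε) * a * ‖v i‖ := by
          rw [← real_inner_self_eq_norm_mul_norm, hvi]
          calc T (v i) i ≤ |T (v i) i| := le_abs_self _
            _ = ‖T (v i) i‖ := (Real.norm_eq_abs _).symm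
            _ ≤ ‖T (v i)‖ := norm_le_pi_norm _ i
            _ ≤ _ := (hT (v i)).2
        exact le_of_mul_le_mul_right h1 (norm_pos_iff.2 h0)
    set w : Fin n → E d := fun i => ‖v i‖⁻¹ • v i with hw
    set S : Fin n → Set (E d) := fun i =>
      {x | v i ≠ 0 ∧ x ∈ ball1 d ∧ τ ≤ |aa (w i) x|} with hS
    have hSvol : ∀ i, volume.real (S i) ≤ C * (Real.sqrt 2 * Real.sqrt ε) ^ d := by
      intro i
      by_cases h0 : v i = 0
      · have : S i = ∅ := by
          ext x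
          simp [hS, h0]
        rw [this, measureReal_empty]
        positivity
      · have h1 : S i = {x | x ∈ ball1 d ∧ τ ≤ |aa (w i) x|} := by
          ext x
          simp [hS, h0]
        have hw1 : ‖w i‖ = 1 := by
          rw [hw, norm_smul, norm_inv, norm_norm, inv_mul_cancel₀ (norm_ne_zero_iff.2 h0)]
        rw [h1]
        refine (hcap (w i) hw1 τ hτ2 hτ1 hρ4).trans ?_
        exact mul_le_mul_of_nonneg_left (pow_le_pow_left₀ (Real.sqrt_nonneg _) hρle d) hC.le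
    have hcover : ball1 d ⊆ (⋃ i, S i) ∪ {0} := by
      intro x hx
      by_cases h0 : x = 0
      · right; exact h0
      left
      have hxn : 0 < ‖x‖ := norm_pos_iff.2 h0
      have h1 := (hT x).1
      obtain ⟨i, hi⟩ : ∃ i, a * ‖x‖ ≤ |T x i| := by
        by_contra hcon
        push Not at hcon
        have h2 : ‖T x‖ < a * ‖x‖ := by
          rw [pi_norm_lt_iff (by positivity)]
          intro i
          rw [Real.norm_eq_abs]
          exact hcon i
        linarith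
      rw [← hvi] at hi
      have hvi0 : v i ≠ 0 := by
        intro h2
        rw [h2, inner_zero_left, abs_zero] at hi
        have : 0 < a * ‖x‖ := by positivity
        linarith
      have hvn0 : 0 < ‖v i‖ := norm_pos_iff.2 hvi0
      refine mem_iUnion.2 ⟨i, hvi0, hx, ?_⟩
      have h3 : aa (w i) x = (‖v i‖⁻¹ * ‖x‖⁻¹) * inner ℝ (v i) x := by
        unfold aa dir
        rw [hw, real_inner_smul_left, real_inner_smul_right]
        ring
      rw [h3, abs_mul, abs_of_pos (by positivity : 0 < ‖v i‖⁻¹ * ‖x‖⁻¹), hτ]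
      have h4 : ‖v i‖ * ‖x‖ ≤ (1 + ε) * |inner ℝ (v i) x| := by
        calc ‖v i‖ * ‖x‖ ≤ (1 + ε) * a * ‖x‖ := mul_le_mul_of_nonneg_right (hvn i) hxn.le
          _ = (1 + ε) * (a * ‖x‖) := by ring
          _ ≤ _ := mul_le_mul_of_nonneg_left hi (by linarith)
      rw [div_le_iff₀ (by linarith), ← mul_inv, mul_comm (‖v i‖ * ‖x‖)⁻¹, mul_assoc,
        mul_comm (‖v i‖ * ‖x‖)⁻¹, ← mul_assoc, ← div_eq_mul_inv, le_div_iff₀ (by positivity),
        one_mul]
      linarith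
    have hfinS : ∀ i, volume (S i) ≠ ⊤ := fun i =>
      ((measure_mono (fun x hx => hx.2.1)).trans_lt
        (measure_ball_lt_top (x := (0 : E d)) (r := 1))).ne
    have hsum : V ≤ n * (C * (Real.sqrt 2 * Real.sqrt ε) ^ d) := by
      have h1 : V ≤ volume.real ((⋃ i, S i) ∪ {0}) := by
        refine measureReal_mono hcover ?_
        refine (measure_union_lt_top ?_ ?_).ne
        · refine (measure_iUnion_fintype_le _ _).trans_lt ?_
          exact ENNReal.sum_lt_top.2 fun i _ => (hfinS i).lt_top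
        · simp
      have h2 : volume.real ((⋃ i, S i) ∪ {0}) ≤ volume.real (⋃ i, S i) + volume.real {(0 : E d)} :=
        measureReal_union_le _ _
      have h3 : volume.real {(0 : E d)} = 0 := by simp [Measure.real]
      have h4 : volume.real (⋃ i, S i) ≤ ∑ i, volume.real (S i) :=
        measureReal_iUnion_fintype_le _
      have h5 : ∑ i, volume.real (S i) ≤ ∑ _i : Fin n, C * (Real.sqrt 2 * Real.sqrt ε) ^ d :=
        Finset.sum_le_sum fun i _ => hSvol i
      rw [Finset.sum_const, Finset.card_univ, Fintype.card_fin, nsmul_eq_mul] at h5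
      linarith
    calc min (V / (C * Real.sqrt 2 ^ d)) (Real.sqrt (1 / 32) ^ d) * (Real.sqrt ε)⁻¹ ^ d
        ≤ V / (C * Real.sqrt 2 ^ d) * (Real.sqrt ε)⁻¹ ^ d :=
          mul_le_mul_of_nonneg_right (min_le_left _ _) (by positivity)
      _ = V / (C * (Real.sqrt 2 * Real.sqrt ε) ^ d) := by
          rw [mul_pow, inv_pow]
          field_simp
      _ ≤ n := by
          rw [div_le_iff₀ (by positivity)]
          exact hsum

end Pool.Agent.Helper66.DS.Core
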